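import Pool.Agent.Helper77.OF4.St

/-!
# Module BA of project OF4: the set W if no corner can be folded
-/

set_option autoImplicit false

namespace Pool.Agent.Helper98.OF4.BA

open Equiv Equiv.Perm Pool.Agent.Helper35.PM Pool.Agent.Helper77.HY Pool.Agent.Helper77.OF4

variable {V D : Type}

theorem per_eq [Finite D] (f : Perm D) {d e : D} (h : f.SameCycle d e) :
    Function.minimalPeriod f e = Function.minimalPeriod f d := by
  obtain ⟨n, hn⟩ := h.exists_nat_pow_eq
  have hp : d ∈ Function.periodicPts f := by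
    refine ⟨orderOf f, orderOf_pos f, ?_⟩
    rw [Function.IsPeriodicPt, Function.IsFixedPt, ← Perm.coe_pow, pow_orderOf_eq_one]
    rfl
  rw [← hn, Perm.coe_pow]
  exact Function.minimalPeriod_apply_iterate hp n

/-- the cycle of a dart -/
def cls (f : Perm D) (d : D) : Set D := {e | f.SameCycle d e}

theorem cls_eq (f : Perm D) {d e : D} : cls f d = cls f e ↔ f.SameCycle d e := by
  constructor
  · intro h
    have h1 : e ∈ cls f e := SameCycle.refl f e
    rw [← h] at h1
    exact h1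
  · intro h
    ext x
    exact ⟨fun hx => h.symm.trans hx, fun hx => h.trans hx⟩

theorem main (hBc : StBc) : StBa := by
  classical
  intro V D _ _ M O hConn hOG hInj hper hO
  -- the odd faces
  set od : D → Prop := fun d => Odd (Function.minimalPeriod M.φ d) with hod
  let S : Finset (Set D) := (O.filter od).image (cls M.φ)
  have hScard : S.card ≤ 4 :=
    (Finset.card_image_le.trans (Finset.card_filter_le _ _)).trans hO.1
  have hodcls : ∀ d e, M.φ.SameCycle d e → (od d ↔ od e) := by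
    intro d e h
    simp only [hod]
    rw [per_eq M.φ h]
  have hS1 : ∀ d, od d → cls M.φ d ∈ S := by
    intro d hd
    obtain ⟨o, ho, hs⟩ := hO.2 d hd
    refine Finset.mem_image.2 ⟨o, Finset.mem_filter.2 ⟨ho, (hodcls o d hs).2 hd⟩, ?_⟩
    exact (cls_eq M.φ).2 hs
  have hS2 : ∀ d, cls M.φ d ∈ S → od d := by
    intro d hd
    obtain ⟨o, ho, hs⟩ := Finset.mem_image.1 hd
    exact (hodcls o d ((cls_eq M.φ).1 hs)).1 (Finset.mem_filter.1 ho).2
  have hS3 : ∀ q ∈ S, ∃ o, od o ∧ cls M.φ o = q := by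
    intro q hq
    obtain ⟨o, ho, hs⟩ := Finset.mem_image.1 hq
    exact ⟨o, (Finset.mem_filter.1 ho).2, hs⟩
  let N : V → Finset (Set D) := fun v => S.filter fun q => ∃ e, cls M.φ e = q ∧ M.t e = v
  have hN : ∀ v q, q ∈ N v ↔ q ∈ S ∧ ∃ e, cls M.φ e = q ∧ M.t e = v := fun v q =>
    Finset.mem_filter
  have hN1 : ∀ d, od d → cls M.φ d ∈ N (M.t d) := fun d hd =>
    (hN _ _).2 ⟨hS1 d hd, d, rfl, rfl⟩
  have hNS : ∀ v, N v ⊆ S := fun v => Finset.filter_subset _ _
  have hsc : ∀ d, M.φ.SameCycle d (M.φ d) := fun d =>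
    sameCycle_apply_right.2 (SameCycle.refl _ _)
  have hN2 : ∀ d, od d → cls M.φ d ∈ N (M.t (M.ι d)) := by
    intro d hd
    refine (hN _ _).2 ⟨hS1 d hd, M.φ d, ?_, t_φ M d⟩
    exact ((cls_eq M.φ).2 (hsc d)).symm
  -- the two pentagons at an edge
  have hbc : ∀ e x, M.t x = M.t e → od x → ∃ q1 q2 : Set D, q1 ≠ q2 ∧
      q1 ∈ N (M.t e) ∧ q1 ∈ N (M.t (M.ι e)) ∧ q2 ∈ N (M.t e) ∧ q2 ∈ N (M.t (M.ι e)) := by
    intro e x hx hodx
    obtain ⟨e1, e2, h1, h2, h3, h4, h5, h6, h7⟩ := hBc V D M hInj hper e x hx hodx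
    refine ⟨cls M.φ e1, cls M.φ e2, fun h => h7 ((cls_eq M.φ).1 h), ?_, ?_, ?_, ?_⟩
    · rw [← h1]; exact hN1 e1 h3
    · rw [← h2]; exact hN2 e1 h3
    · rw [← h5]; exact hN2 e2 h6
    · rw [← h4]; exact hN1 e2 h6
  by_cases hA : ∀ v, (N v).card ≤ 2
  · left
    have hpair : ∀ v w (q1 q2 : Set D), q1 ≠ q2 → q1 ∈ N v → q1 ∈ N w → q2 ∈ N v → q2 ∈ N w →
        N v = N w := by
      intro v w q1 q2 hne h1 h2 h3 h4
      have key : ∀ u, q1 ∈ N u → q2 ∈ N u → ({q1, q2} : Finset (Set D)) = N u := by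
        intro u h5 h6
        refine Finset.eq_of_subset_of_card_le ?_ ?_
        · intro q hq
          rcases Finset.mem_insert.1 hq with h | h
          · rw [h]; exact h5
          · rw [Finset.mem_singleton.1 h]; exact h6
        · rw [Finset.card_pair hne]
          exact hA u
      rw [← key v h1 h3, ← key w h2 h4]
    have hedge : ∀ e, N (M.t e) = N (M.t (M.ι e)) := by
      intro e
      by_cases h1 : ∃ x, M.t x = M.t e ∧ od x
      · obtain ⟨x, hx, hox⟩ := h1
        obtain ⟨q1, q2, hne, a1, a2, a3, a4⟩ := hbc e x hx hox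
        exact hpair _ _ q1 q2 hne a1 a2 a3 a4
      · by_cases h2 : ∃ x, M.t x = M.t (M.ι e) ∧ od x
        · obtain ⟨x, hx, hox⟩ := h2
          obtain ⟨q1, q2, hne, a1, a2, a3, a4⟩ := hbc (M.ι e) x hx hox
          rw [M.inv e] at a2 a4
          exact hpair _ _ q1 q2 hne a2 a1 a4 a3
        · have hemp : ∀ v, (¬ ∃ x, M.t x = v ∧ od x) → N v = ∅ := by
            intro v hv
            rw [Finset.eq_empty_iff_forall_notMem]
            intro q hq
            obtain ⟨hqS, d, hd, hdv⟩ := (hN v q).1 hq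
            exact hv ⟨d, hdv, hS2 d (by rw [hd]; exact hqS)⟩
          rw [hemp _ h1, hemp _ h2]
    have hconst : ∀ v w, N v = N w := by
      intro v w
      have h1 := hConn v w
      induction h1 with
      | refl => rfl
      | tail _ hbc ih =>
        obtain ⟨d, hd1, hd2⟩ := hbc
        rw [ih, ← hd1, ← hd2]
        exact hedge d
    obtain ⟨p⟩ : Nonempty V := inferInstance
    refine ⟨p, fun d hd => ?_⟩
    have h1 := hN1 d hd
    rw [hconst (M.t d) p] at h1
    obtain ⟨_, e, he, hep⟩ := (hN p _).1 h1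
    exact ⟨e, ((cls_eq M.φ).1 he).symm, hep⟩
  · push Not at hA
    obtain ⟨p, hp⟩ := hA
    by_cases hall : S ⊆ N p
    · left
      refine ⟨p, fun d hd => ?_⟩
      obtain ⟨_, e, he, hep⟩ := (hN p _).1 (hall (hS1 d hd))
      exact ⟨e, ((cls_eq M.φ).1 he).symm, hep⟩
    · right
      obtain ⟨q4, hq4, hq4p⟩ := Finset.not_subset.1 hall
      have hrest : ∀ q ∈ S, q ≠ q4 → q ∈ N p := by
        have h1 : insert q4 (N p) ⊆ S := by
          intro q hq
          rcases Finset.mem_insert.1 hq with h | h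
          · rw [h]; exact hq4
          · exact hNS p h
        have h2 : insert q4 (N p) = S := by
          refine Finset.eq_of_subset_of_card_le h1 ?_
          rw [Finset.card_insert_of_notMem hq4p]
          omega
        intro q hq hne
        rw [← h2] at hq
        rcases Finset.mem_insert.1 hq with h | h
        · exact absurd h hne
        · exact h
      obtain ⟨o4, ho4, ho4q⟩ := hS3 q4 hq4
      have hv : q4 ∈ N (M.t o4) := by rw [← ho4q]; exact hN1 o4 ho4
      have hv' : q4 ∈ N (M.t (M.ι o4)) := by rw [← ho4q]; exact hN2 o4 ho4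
      have hvp : M.t o4 ≠ p := fun h => hq4p (h ▸ hv)
      have hvp' : M.t (M.ι o4) ≠ p := fun h => hq4p (h ▸ hv')
      have hvv : M.t (M.ι o4) ≠ M.t o4 := hOG.1 o4
      -- a face of `p` which contains both ends
      obtain ⟨q, hqne, hqv, hqv'⟩ : ∃ q, q ≠ q4 ∧ q ∈ N (M.t o4) ∧ q ∈ N (M.t (M.ι o4)) := by
        obtain ⟨q1, q2, hne, a1, a2, a3, a4⟩ := hbc o4 o4 rfl ho4
        by_cases h : q1 = q4
        · exact ⟨q2, fun h' => hne (h.trans h'.symm), a3, a4⟩
        · exact ⟨q1, h, a1, a2⟩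
      have hqp : q ∈ N p := hrest q (hNS _ hqv) hqne
      obtain ⟨hqS, g, hg, hgp⟩ := (hN p q).1 hqp
      obtain ⟨_, ev, hev, hevv⟩ := (hN _ q).1 hqv
      obtain ⟨_, ev', hev', hevv'⟩ := (hN _ q).1 hqv'
      have hgod : od g := hS2 g (by rw [hg]; exact hqS)
      have hg5 : Function.minimalPeriod M.φ g = 5 := by
        rcases hper g with h | h
        · exfalso
          have : Odd (Function.minimalPeriod M.φ g) := hgod
          rw [h] at this
          exact absurd this (by decide)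
        · exact h
      have hφ5 : M.φ (M.φ (M.φ (M.φ (M.φ g)))) = g := by
        have h1 := Function.iterate_minimalPeriod (f := M.φ) (x := g)
        rw [hg5] at h1
        exact h1
      -- every dart of the face
      have hface : ∀ e, M.φ.SameCycle g e → e = g ∨ e = M.φ g ∨ e = M.φ (M.φ g) ∨
          e = M.φ (M.φ (M.φ g)) ∨ e = M.φ (M.φ (M.φ (M.φ g))) := by
        intro e he
        obtain ⟨n, hn⟩ := he.exists_nat_pow_eq
        have h1 : M.φ^[n % 5] g = e := by
          rw [← hg5, Function.iterate_mod_minimalPeriod_eq, ← Perm.coe_pow]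
          exact hn
        have h2 : n % 5 < 5 := Nat.mod_lt _ (by norm_num)
        rw [← h1]
        generalize n % 5 = m at h2
        interval_cases m
        · exact Or.inl rfl
        · exact Or.inr (Or.inl rfl)
        · exact Or.inr (Or.inr (Or.inl rfl))
        · exact Or.inr (Or.inr (Or.inr (Or.inl rfl)))
        · exact Or.inr (Or.inr (Or.inr (Or.inr rfl)))
      have hcov : ∀ w, w ∈ ({M.t o4, M.t (M.ι o4)} : Set V) → q4 ∈ N w := by
        intro w hw
        rcases hw with h | h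
        · rw [h]; exact hv
        · rw [Set.mem_singleton_iff.1 h]; exact hv'
      -- the conclusion from a position of one of the two ends
      have hfin : ∀ a b, ((M.t a = p ∧ M.t b ∈ ({M.t o4, M.t (M.ι o4)} : Set V)) ∨
          (M.t b = p ∧ M.t a ∈ ({M.t o4, M.t (M.ι o4)} : Set V))) →
          M.t a ≠ M.t b ∧ ∀ d, Odd (Function.minimalPeriod M.φ d) →
            ∃ e, M.φ.SameCycle d e ∧ (M.t e = M.t a ∨ M.t e = M.t b) := by
        intro a b hab
        have hq4N : ∀ w, w ∈ ({M.t o4, M.t (M.ι o4)} : Set V) → w ≠ p := by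
          intro w hw h
          exact hq4p (h ▸ hcov w hw)
        have hex : ∀ w, w ∈ ({M.t o4, M.t (M.ι o4)} : Set V) → ∀ d,
            Odd (Function.minimalPeriod M.φ d) →
            ∃ e, M.φ.SameCycle d e ∧ (M.t e = p ∨ M.t e = w) := by
          intro w hw d hd
          by_cases h : cls M.φ d = q4
          · obtain ⟨_, e, he, hew⟩ := (hN w q4).1 (hcov w hw)
            refine ⟨e, ?_, Or.inr hew⟩
            rw [← h] at he
            exact ((cls_eq M.φ).1 he).symm
          · obtain ⟨_, e, he, hep⟩ := (hN p _).1 (hrest _ (hS1 d hd) h)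
            exact ⟨e, ((cls_eq M.φ).1 he).symm, Or.inl hep⟩
        rcases hab with ⟨h1, h2⟩ | ⟨h1, h2⟩
        · refine ⟨fun h => hq4N _ h2 (h ▸ h1), fun d hd => ?_⟩
          obtain ⟨e, he, h3⟩ := hex _ h2 d hd
          exact ⟨e, he, by rw [h1]; exact h3⟩
        · refine ⟨fun h => hq4N _ h2 (h.trans h1), fun d hd => ?_⟩
          obtain ⟨e, he, h3⟩ := hex _ h2 d hd
          exact ⟨e, he, by rw [h1]; exact h3.symm⟩
      have hadj1 : ∀ d, M.t (M.φ d) = M.t (M.ι d) := t_φ M
      have hvmem : M.t o4 ∈ ({M.t o4, M.t (M.ι o4)} : Set V) := Or.inl rfl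
      have hvmem' : M.t (M.ι o4) ∈ ({M.t o4, M.t (M.ι o4)} : Set V) := Or.inr rfl
      have hfin2 : ∀ w, w ∈ ({M.t o4, M.t (M.ι o4)} : Set V) → w = M.t (M.φ (M.φ g)) →
          ∃ g, M.t g ≠ M.t (M.φ (M.φ g)) ∧ ∀ d, Odd (Function.minimalPeriod M.φ d) →
            ∃ e, M.φ.SameCycle d e ∧ (M.t e = M.t g ∨ M.t e = M.t (M.φ (M.φ g))) := by
        intro w hw h
        exact ⟨g, hfin g (M.φ (M.φ g)) (Or.inl ⟨hgp, by rw [← h]; exact hw⟩)⟩
      have hfin3 : ∀ w, w ∈ ({M.t o4, M.t (M.ι o4)} : Set V) → w = M.t (M.φ (M.φ (M.φ g))) →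
          ∃ g, M.t g ≠ M.t (M.φ (M.φ g)) ∧ ∀ d, Odd (Function.minimalPeriod M.φ d) →
            ∃ e, M.φ.SameCycle d e ∧ (M.t e = M.t g ∨ M.t e = M.t (M.φ (M.φ g))) := by
        intro w hw h
        refine ⟨M.φ (M.φ (M.φ g)), ?_⟩
        rw [hφ5]
        exact hfin (M.φ (M.φ (M.φ g))) g (Or.inr ⟨hgp, by rw [← h]; exact hw⟩)
      have hcv := hface ev ((cls_eq M.φ).1 (hg.trans hev.symm))
      have hcv' := hface ev' ((cls_eq M.φ).1 (hg.trans hev'.symm))
      -- no triangle
      have htri : ∀ a b : D, M.t a = M.t (M.φ g) → M.t b = M.t (M.φ (M.φ (M.φ (M.φ g)))) →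
          (∃ c, M.t c = M.t a ∧ M.t (M.ι c) = M.t b) → False := by
        rintro a b ha hb ⟨c, hc1, hc2⟩
        -- p - t (φ g) - t (φ^4 g) - p
        refine hOG.2 g c (M.φ (M.φ (M.φ (M.φ g)))) ?_ ?_ ?_
        · rw [hc1, ha, hadj1]
        · rw [hc2, hb]
        · rw [← hadj1, hφ5]
      rcases hcv with h | h | h | h | h
      · exact absurd (by rw [← hevv, h]; exact hgp) hvp
      · rcases hcv' with h' | h' | h' | h' | h'
        · exact absurd (by rw [← hevv', h']; exact hgp) hvp'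
        · exact absurd (by rw [← hevv, ← hevv', h, h']) hvv
        · exact hfin2 _ hvmem' (by rw [← hevv', h'])
        · exact hfin3 _ hvmem' (by rw [← hevv', h'])
        · exact (htri ev ev' (by rw [h]) (by rw [h']) ⟨o4, hevv.symm, hevv'.symm⟩).elim
      · exact hfin2 _ hvmem (by rw [← hevv, h])
      · exact hfin3 _ hvmem (by rw [← hevv, h])
      · rcases hcv' with h' | h' | h' | h' | h'
        · exact absurd (by rw [← hevv', h']; exact hgp) hvp'
        · exact (htri ev' ev (by rw [h']) (by rw [h])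
            ⟨M.ι o4, hevv'.symm, by rw [M.inv]; exact hevv.symm⟩).elim
        · exact hfin2 _ hvmem' (by rw [← hevv', h'])
        · exact hfin3 _ hvmem' (by rw [← hevv', h'])
        · exact absurd (by rw [← hevv, ← hevv', h, h']) hvv

end Pool.Agent.Helper98.OF4.BA
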